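import Mathlib
import Pool.Agent.H967PS.Final

/-!
The set of smooth functions on `[0,1]` whose Taylor series has radius of convergence `0` at every
point of `[0,1]` is densely strongly algebrable in the Fréchet algebra of smooth functions, with
continuum many generators, over the real and over the complex numbers; every nonempty subfamily of
the generators (even a single one) already generates a dense algebra.
-/

namespace Pool.Agent.Results.MP_30394b_an.DenselyAlgebrable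

open Pool.Agent.H451R3.PS Pool.Agent.H967PS

theorem result (𝕜 : Type*) [RCLike 𝕜] :
    ∃ S : Set C(I, 𝕜), Cardinal.mk S = Cardinal.continuum ∧
      AlgebraicIndependent 𝕜 (Subtype.val : S → C(I, 𝕜)) ∧
      (∀ T : Set C(I, 𝕜), T ⊂ S →
        NonUnitalAlgebra.adjoin 𝕜 T ≠ NonUnitalAlgebra.adjoin 𝕜 S) ∧
      (∀ g ∈ NonUnitalAlgebra.adjoin 𝕜 S, g ≠ 0 →
        ∃ hg : (g : I → 𝕜) ∈ CInf 𝕜, ∀ x : I, rho ⟨(g : I → 𝕜), hg⟩ x = 0) ∧
      ∀ T : Set C(I, 𝕜), T ⊆ S → T.Nonempty → @Dense (CInf 𝕜) (frechet 𝕜)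
        {f | ∃ g ∈ NonUnitalAlgebra.adjoin 𝕜 T, (g : I → 𝕜) = f.1} := by
  obtain ⟨ι, b, hι, hb, hb0⟩ := exists_family
  have : Nonempty ι := by
    rw [← Cardinal.mk_ne_zero_iff, hι]
    exact Cardinal.continuum_ne_zero
  have hind : AlgebraicIndependent 𝕜 (EF b : ι → C(I, 𝕜)) := indepF hb hb0
  have hS : AlgebraicIndependent 𝕜 (Subtype.val : Set.range (EF b : ι → C(I, 𝕜)) → C(I, 𝕜)) :=
    hind.coe_range
  refine ⟨Set.range (EF b), ?_, hS, ?_, ?_, ?_⟩
  · have h1 := Cardinal.mk_range_eq_of_injective hind.injective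
    rw [hι, Cardinal.lift_continuum] at h1
    exact Cardinal.lift_injective (by rw [h1, Cardinal.lift_continuum])
  · intro T hT heq
    obtain ⟨s, hs, hsT⟩ := Set.exists_of_ssubset hT
    have h1 : s ∈ NonUnitalAlgebra.adjoin 𝕜 T := by
      rw [heq]
      exact NonUnitalAlgebra.subset_adjoin 𝕜 hs
    have h2 : s ∈ Algebra.adjoin 𝕜 T := NonUnitalAlgebra.adjoin_le_algebra_adjoin 𝕜 T h1
    have h3 := hS.transcendental_adjoin (s := {j | j.1 ∈ T}) (i := ⟨s, hs⟩) (by simpa using hsT)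
    have h4 : (Subtype.val : Set.range (EF b : ι → C(I, 𝕜)) → C(I, 𝕜)) '' {j | j.1 ∈ T} = T := by
      ext t
      constructor
      · rintro ⟨j, hj, rfl⟩
        exact hj
      · intro ht
        exact ⟨⟨t, hT.1 ht⟩, ht, rfl⟩
    rw [h4] at h3
    exact h3 (isAlgebraic_algebraMap (⟨s, h2⟩ : Algebra.adjoin 𝕜 T))
  · intro g hg hg0
    obtain ⟨p, hp0, rfl⟩ := mem_adjoinF hg
    have hp : p ≠ 0 := by
      intro h
      rw [h, map_zero] at hg0
      exact hg0 rfl
    refine ⟨?_, fun x => radius_aevalF hb hb0 hp0 hp x⟩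
    exact (contDiff_hpF b p).contDiffOn.congr fun x hx => ext_eqF b p hx
  · rintro T hT ⟨s, hs⟩
    obtain ⟨i, rfl⟩ := hT hs
    let : TopologicalSpace (CInf 𝕜) := frechet 𝕜
    refine (dense_EF (𝕜 := 𝕜) hb0 i).mono ?_
    rintro f ⟨g, hg, hgf⟩
    exact ⟨g, NonUnitalAlgebra.adjoin_mono (Set.singleton_subset_iff.2 hs) hg, hgf⟩

end Pool.Agent.Results.MP_30394b_an.DenselyAlgebrable
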